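import Pool.Agent.N208.BT.Fin
import Pool.Agent.R918.Tor

set_option autoImplicit false

/-!
# The centre of the period torsors: statements
-/

open Module Function TensorProduct Matrix

noncomputable section

namespace Pool.Agent.N208.CT

open Pool.Agent.Y102 Pool.Agent.W516.DR Pool.Agent.H204R3.GP Pool.Agent.W516.KC
  Pool.Agent.H204R3.SP Pool.Agent.TH119.MX Pool.Agent.R917 Pool.Agent.N208.AM Pool.Agent.N208.AD

/-- **CT/DIAG.** The central elements and the weights are simultaneously diagonal on a motive. -/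
def S_DIAG : Prop := ∀ (g : ℕ) (A : AbVar g) (s n : ℕ) (r : Fin s → ℕ) (B : Fin n → Ten A r)
  (w : Fin s → ℤ) (Wt : Matrix (Fin n) (Fin n) ℚ), LinearIndependent ℚ B → WRel w B Wt →
  ∀ (m : ℕ) (b : Basis (Fin m) ℂ (ℂ ⊗[ℚ] A.H1)) (χ : Fin m → (A.ZA →ₗ[ℚ] ℂ)),
  (∀ k (R : A.ZA), (R : Module.End ℚ A.H1).baseChange ℂ (b k) = χ k R • b k) →
  ∃ (S S' : Matrix (Fin n) (Fin n) ℂ) (J : Fin n → Σ i : Fin s, (Fin (r i) → Fin m)),
    S * S' = 1 ∧ S' * S = 1 ∧
    (∀ (X : A.ZA) (M : Matrix (Fin n) (Fin n) ℚ), Rel B X M →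
      cq M = S * Matrix.diagonal (fun j => ∑ k, χ ((J j).2 k) X) * S') ∧
    cq Wt = S * Matrix.diagonal (fun j => (r (J j).1 : ℂ) - 2 * w (J j).1) * S'

end Pool.Agent.N208.CT
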