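import Pool.Agent.N208.CT.Stm
import Pool.Agent.N755.CTDIAG

set_option autoImplicit false
set_option linter.unusedSectionVars false

/-!
# The centre of the period torsors of motives of abelian type
-/

open Module Function TensorProduct Matrix

noncomputable section

namespace Pool.Agent.N208.CT

open Pool.Agent.Y102 Pool.Agent.W516.DR Pool.Agent.H204R3.GP Pool.Agent.W516.KC
  Pool.Agent.H204R3.SP Pool.Agent.TH119.MX Pool.Agent.R917 Pool.Agent.N208.AM Pool.Agent.N208.AD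
  Pool.Agent.N208.BT

variable {g : ℕ} {A : AbVar g} {s n : ℕ} {r : Fin s → ℕ} {B : Fin n → Ten A r} {w : Fin s → ℤ}
  {P : Matrix (Fin n) (Fin n) ℂ} {H : Set (Matrix (Fin n) (Fin n) ℂ)}
  {Wt : Matrix (Fin n) (Fin n) ℚ} {N : Matrix (Fin n) (Fin n) ℝ}

/-- The characters of the central elements are purely imaginary. -/
theorem re_char {m : ℕ} {b : Basis (Fin m) ℂ (ℂ ⊗[ℚ] A.H1)} {χ : Fin m → (A.ZA →ₗ[ℚ] ℂ)}
    (hb : ∀ k (R : A.ZA), (R : Module.End ℚ A.H1).baseChange ℂ (b k) = χ k R • b k)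
    {X : Module.End ℚ A.H1} (hX : X ∈ A.CN) (k : Fin m) :
    (χ k ⟨X, A.CN_le_ZA hX⟩).re = 0 := by
  have h0 : (R918.eqv (2 * g)).symm (b k) ≠ 0 := by
    intro h
    exact b.ne_zero k ((LinearEquiv.map_eq_zero_iff _).1 h)
  refine R918.re_eigen hX h0 (z := χ k ⟨X, A.CN_le_ZA hX⟩) ?_
  apply (R918.eqv (2 * g)).injective
  rw [← R918.matE_eqv, matE_toC, map_smul, LinearEquiv.apply_symm_apply]
  exact hb k ⟨X, A.CN_le_ZA hX⟩

/-- Relations between sums of characters. -/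
theorem rel_of_dom {m : ℕ} {b : Basis (Fin m) ℂ (ℂ ⊗[ℚ] A.H1)} {χ : Fin m → (A.ZA →ₗ[ℚ] ℂ)}
    (hb : ∀ k (R : A.ZA), (R : Module.End ℚ A.H1).baseChange ℂ (b k) = χ k R • b k)
    {X Y : A.ZA} (hdom : Dom (X : Module.End ℚ A.H1) (Y : Module.End ℚ A.H1))
    (α β : Fin m → ℕ) (h : ∑ i, (α i : ℂ) * χ i X = ∑ i, (β i : ℂ) * χ i X) :
    ∑ i, (α i : ℂ) * χ i Y = ∑ i, (β i : ℂ) * χ i Y := by
  choose neg hneg using fun i => A.exists_neg hb i
  have h7 := R918.dom_fintype hdom (κ := (Σ i, Fin (α i)) ⊕ (Σ i, Fin (β i)))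
    (Sum.elim (fun k => b k.1) (fun k => b (neg k.1)))
    (Sum.elim (fun k => χ k.1 X) (fun k => χ (neg k.1) X))
    (Sum.elim (fun k => χ k.1 Y) (fun k => χ (neg k.1) Y))
    (by
      rintro (k | k)
      · exact b.ne_zero _
      · exact b.ne_zero _)
    (by
      rintro (k | k)
      · exact hb _ _
      · exact hb _ _)
    (by
      rintro (k | k)
      · exact hb _ _
      · exact hb _ _)
    (by
      rw [Fintype.sum_sum_type]
      change ∑ k : (Σ i, Fin (α i)), χ k.1 X + ∑ k : (Σ i, Fin (β i)), χ (neg k.1) X = 0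
      rw [R918.sum_sigma_fin α fun i => χ i X, R918.sum_sigma_fin β fun i => χ (neg i) X, h,
        ← Finset.sum_add_distrib]
      refine Finset.sum_eq_zero fun i _ => ?_
      rw [hneg, LinearMap.neg_apply]
      ring)
  rw [Fintype.sum_sum_type] at h7
  change ∑ k : (Σ i, Fin (α i)), χ k.1 Y + ∑ k : (Σ i, Fin (β i)), χ (neg k.1) Y = 0 at h7
  rw [R918.sum_sigma_fin α fun i => χ i Y, R918.sum_sigma_fin β fun i => χ (neg i) Y] at h7
  have h8 : ∑ i, (β i : ℂ) * χ (neg i) Y = -∑ i, (β i : ℂ) * χ i Y := by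
    rw [← Finset.sum_neg_distrib]
    refine Finset.sum_congr rfl fun i _ => ?_
    rw [hneg, LinearMap.neg_apply]
    ring
  rw [h8] at h7
  exact add_neg_eq_zero.1 h7

/-- Sums over labels as sums over characters. -/
theorem count_sum {m : ℕ} (J : Fin n → Σ i : Fin s, (Fin (r i) → Fin m)) (α : Fin n → ℕ)
    (f : Fin m → ℂ) : ∑ j, (α j : ℂ) * ∑ k, f ((J j).2 k) =
      ∑ i, ((∑ j, α j * (Finset.univ.filter fun k => (J j).2 k = i).card : ℕ) : ℂ) * f i := by
  have h1 : ∀ j, ∑ k, f ((J j).2 k) =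
      ∑ i, ((Finset.univ.filter fun k => (J j).2 k = i).card : ℂ) * f i := by
    intro j
    rw [← Finset.sum_fiberwise_of_maps_to (s := Finset.univ) (t := Finset.univ)
      (g := fun k => (J j).2 k) (fun _ _ => Finset.mem_univ _)]
    refine Finset.sum_congr rfl fun i _ => ?_
    rw [Finset.sum_congr rfl fun k hk => by rw [(Finset.mem_filter.1 hk).2], Finset.sum_const,
      nsmul_eq_mul]
  simp only [h1, Finset.mul_sum]
  rw [Finset.sum_comm]
  refine Finset.sum_congr rfl fun i _ => ?_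
  push_cast
  rw [Finset.sum_mul]
  refine Finset.sum_congr rfl fun j _ => ?_
  ring

/-- **Replicas of central elements on a motive.** -/
theorem replica_M (h : Mot w B P) (hW : WRel w B Wt) (hH : PtM P H)
    {X Y : Module.End ℚ A.H1} (hX : X ∈ A.CN) (hY : Y ∈ A.CN) {M M' : Matrix (Fin n) (Fin n) ℚ}
    (hM : Rel B X M) (hM' : Rel B Y M') {c : ℚ} (hc : M + c • Wt ∈ LQ H) (hdom : Dom X Y) :
    M' ∈ LQ H ∧ (c ≠ 0 → Wt ∈ LQ H) := by
  obtain ⟨m, b, χ, hb⟩ := A.exists_basis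
  obtain ⟨S, S', J, h1, h2, hd, hw⟩ := Pool.Agent.N755.CT.main g A s n r B w Wt h.li hW m b χ hb
  obtain ⟨X', hX'⟩ : ∃ X' : A.ZA, X' = ⟨X, A.CN_le_ZA hX⟩ := ⟨_, rfl⟩
  obtain ⟨Y', hY'⟩ : ∃ Y' : A.ZA, Y' = ⟨Y, A.CN_le_ZA hY⟩ := ⟨_, rfl⟩
  obtain ⟨x, hx⟩ : ∃ x : Fin n → ℂ, ∀ j, x j = ∑ k, χ ((J j).2 k) X' := ⟨_, fun _ => rfl⟩
  obtain ⟨y, hy⟩ : ∃ y : Fin n → ℂ, ∀ j, y j = ∑ k, χ ((J j).2 k) Y' := ⟨_, fun _ => rfl⟩
  obtain ⟨q, hq⟩ : ∃ q : Fin n → ℚ, ∀ j, q j = (r (J j).1 : ℚ) - 2 * w (J j).1 := ⟨_, fun _ => rfl⟩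
  have hXd : cq M = S * Matrix.diagonal x * S' := by
    rw [hd X' M (by rw [hX']; exact hM)]
    congr 3
    funext j
    exact (hx j).symm
  have hYd : cq M' = S * Matrix.diagonal y * S' := by
    rw [hd Y' M' (by rw [hY']; exact hM')]
    congr 3
    funext j
    exact (hy j).symm
  have hWd : cq Wt = S * Matrix.diagonal (fun j => (q j : ℂ)) * S' := by
    rw [hw]
    congr 3
    funext j
    rw [hq]
    push_cast
    ring
  have hTd : cq (M + c • Wt) = S * Matrix.diagonal (fun j => x j + c * q j) * S' := by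
    have e1 : cq (M + c • Wt) = cq M + (c : ℂ) • cq Wt := by
      ext i j
      simp [cq]
    have e2 : Matrix.diagonal (fun j => x j + c * (q j : ℂ)) =
        Matrix.diagonal x + (c : ℂ) • Matrix.diagonal (fun j => (q j : ℂ)) := by
      rw [← Matrix.diagonal_smul, Matrix.diagonal_add]
      rfl
    rw [e1, hXd, hWd, e2, mul_add, add_mul, mul_smul_comm, smul_mul_assoc]
  have hTe : ∀ t : ℂ, S * Matrix.diagonal (fun j => Complex.exp (t * (x j + c * q j))) * S' ∈ H := by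
    intro t
    rw [← R918.exp_diag h1 h2, ← hTd]
    exact exp_mem hH.grp fun d => (hc d).smul t
  have hre : ∀ j, (x j).re = 0 := by
    intro j
    rw [hx, Complex.re_sum]
    refine Finset.sum_eq_zero fun k _ => ?_
    rw [hX']
    exact re_char hb hX _
  have hres : ∀ α : Fin n → ℕ, (∑ i, (α i : ℂ) * x i).re = 0 := by
    intro α
    rw [Complex.re_sum]
    refine Finset.sum_eq_zero fun i _ => ?_
    rw [Complex.mul_re, hre, mul_zero, Complex.natCast_im, zero_mul, sub_zero]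
  have hexp : ∀ α : Fin n → ℕ, ∑ i, (α i : ℂ) * (x i + c * q i) =
      ∑ i, (α i : ℂ) * x i + ((∑ i, (α i : ℚ) * (c * q i) : ℚ) : ℂ) := by
    intro α
    push_cast
    rw [← Finset.sum_add_distrib]
    refine Finset.sum_congr rfl fun i _ => ?_
    ring
  have hsplit : ∀ α β : Fin n → ℕ,
      ∑ i, (α i : ℂ) * (x i + c * q i) = ∑ i, (β i : ℂ) * (x i + c * q i) →
      ∑ i, (α i : ℂ) * x i = ∑ i, (β i : ℂ) * x i ∧
        ∑ i, (α i : ℚ) * (c * q i) = ∑ i, (β i : ℚ) * (c * q i) := by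
    intro α β hαβ
    rw [hexp, hexp] at hαβ
    have h6 := congrArg Complex.re hαβ
    rw [Complex.add_re, Complex.add_re, hres, hres, zero_add, zero_add, Complex.ratCast_re,
      Complex.ratCast_re] at h6
    have h7 : ∑ i, (α i : ℚ) * (c * q i) = ∑ i, (β i : ℚ) * (c * q i) := by exact_mod_cast h6
    rw [h7] at hαβ
    exact ⟨add_right_cancel hαβ, h7⟩
  constructor
  · have hrel : ∀ α β : Fin n → ℕ,
        ∑ i, (α i : ℂ) * (x i + c * q i) = ∑ i, (β i : ℂ) * (x i + c * q i) →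
        ∑ i, (α i : ℂ) * y i = ∑ i, (β i : ℂ) * y i := by
      intro α β hαβ
      have h3 := (hsplit α β hαβ).1
      simp only [hx] at h3
      rw [count_sum J α fun i => χ i X', count_sum J β fun i => χ i X'] at h3
      have h4 := rel_of_dom hb (X := X') (Y := Y') (by rw [hX', hY']; exact hdom) _ _ h3
      simp only [hy]
      rw [count_sum J α fun i => χ i Y', count_sum J β fun i => χ i Y']
      exact h4
    have hYe := R918.replica hH.grp h1 h2 _ _ hrel hTe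
    intro d
    refine R918.stab_of_exp hH.grp (fun t => ?_) d
    change NormedSpace.exp (t • cq M') ∈ H
    rw [hYd, R918.exp_diag h1 h2]
    exact hYe t
  · intro hc0
    have hrel : ∀ α β : Fin n → ℕ,
        ∑ i, (α i : ℂ) * (x i + c * q i) = ∑ i, (β i : ℂ) * (x i + c * q i) →
        ∑ i, (α i : ℂ) * (q i : ℂ) = ∑ i, (β i : ℂ) * (q i : ℂ) := by
      intro α β hαβ
      have h3 := (hsplit α β hαβ).2
      have h4 : ∀ α : Fin n → ℕ, ∑ i, (α i : ℚ) * (c * q i) = c * ∑ i, (α i : ℚ) * q i := by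
        intro α
        rw [Finset.mul_sum]
        refine Finset.sum_congr rfl fun i _ => ?_
        ring
      rw [h4, h4] at h3
      have h5 := mul_left_cancel₀ hc0 h3
      exact_mod_cast h5
    have hYe := R918.replica hH.grp h1 h2 _ _ hrel hTe
    intro d
    refine R918.stab_of_exp hH.grp (fun t => ?_) d
    change NormedSpace.exp (t • cq Wt) ∈ H
    rw [hWd, R918.exp_diag h1 h2]
    exact hYe t

/-- The two descriptions of the centre. -/
theorem cenA_eq : cenA A = A.CN := by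
  refine SetLike.ext fun X => ?_
  exact ⟨fun h => ⟨h.1, fun Y hY => (h.2 Y hY).symm⟩, fun h => ⟨h.1, fun Y hY => (h.2 Y hY).symm⟩⟩

/-- **The weights are in the Lie algebra of the group.** -/
theorem Wt_mem' (h : Mot w B P) (hW : WRel w B Wt) (hH : PtM P H) : Wt ∈ LQ H := by
  obtain ⟨D, lam, hne⟩ := exists_der
  have hq := qM_full h hW hH
  have h0 : X0 A.basis tau D lam ∈ qM B Wt H := by
    have h0 : X0 A.basis tau D lam ∈ A.NA := A.LA_le_NA (by
      rw [AbVar.LA_eq]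
      exact X0_mem A.basis AbVar.tau_ne D lam)
    obtain ⟨N, hN⟩ := h.st _ h0
    exact ⟨h0, N, hN, _, log_mem h hH D lam hN hW⟩
  obtain ⟨Z, hZ, d, hd, hXd, hcomm⟩ := hq.dec h0
  obtain ⟨M0, hM0⟩ := h.st _ h0.1
  have h1 := log_mem h hH D lam hM0 hW
  have hZC : Z ∈ A.CN :=
    ⟨hq.le hZ, fun Y hY => hq.comm Z (fun X hX => (hcomm X hX).symm) Y hY⟩
  obtain ⟨MZ, hMZ⟩ := h.st Z hZC.1
  obtain ⟨-, M', hM', hM''⟩ := der_mem h hW hd
  have h3 : M0 = MZ + M' := by
    rw [hXd] at hM0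
    exact hM0.uniq h.li (hMZ.add hM')
  have h4 : MZ + lam (D tau / (2 * tau)) • Wt ∈ LQ H := by
    have h5 := (LQ H).sub_mem h1 hM''
    rw [h3] at h5
    convert h5 using 1
    abel
  exact (replica_M h hW hH hZC hZC hMZ hMZ h4 (R918.dom_self Z)).2 hne

/-- The centre is rigid: the relations between the eigenvalues of a generating element of the centre
hold for all elements of the centre. -/
def Rigid (A : AbVar g) : Prop :=
  ∀ X ∈ A.CN, (∀ T : Module.End ℚ A.H1,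
    (∀ Y ∈ A.NA, ∀ Z ∈ A.NA, T * (Y * Z - Z * Y) = (Y * Z - Z * Y) * T) → T * X = X * T →
    ∀ Z ∈ A.CN, T * Z = Z * T) → ∀ Y ∈ A.CN, Dom X Y

/-- **The centre is in the Lie algebra of the group**, if it is rigid. -/
theorem cen_mem (h : Mot w B P) (hW : WRel w B Wt) (hH : PtM P H) (hrig : Rigid A)
    {Y : Module.End ℚ A.H1} (hY : Y ∈ A.CN) {M : Matrix (Fin n) (Fin n) ℚ} (hM : Rel B Y M) :
    M ∈ LQ H := by
  have hf := qM_full h hW hH
  obtain ⟨m, b, χ, hb⟩ := A.exists_basis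
  obtain ⟨X, ⟨⟨_, MX, hMX, c, hc⟩, hX2⟩, hX⟩ := R918.exists_generic
    (𝔠 := qM B Wt H ⊓ A.CN) (inf_le_right.trans A.CN_le_ZA) χ
  refine (replica_M h hW hH hX2 hY hMX hM hc (hrig X hX2 (fun T hT hTX Z hZ => ?_) Y hY)).1
  have h0 : ∀ d ∈ der (qM B Wt H), T * d = d * T := by
    intro d hd
    unfold der at hd
    induction hd using Submodule.span_induction with
    | mem z hz =>
      obtain ⟨x, hx, y, hy, rfl⟩ := hz
      exact hT x (hf.le hx) y (hf.le hy)
    | zero => rw [mul_zero, zero_mul]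
    | add a b _ _ ha hb => rw [mul_add, add_mul, ha, hb]
    | smul c a _ ha => rw [mul_smul_comm, smul_mul_assoc, ha]
  have h1 : ∀ Q ∈ qM B Wt H, Q * T = T * Q := by
    intro Q hQ
    obtain ⟨Z', hZ', d, hd, rfl, hc'⟩ := hf.dec hQ
    have hZC : Z' ∈ A.CN :=
      ⟨hf.le hZ', fun Y hY => hf.comm Z' (fun X hX => (hc' X hX).symm) Y hY⟩
    have e1 : T * Z' = Z' * T :=
      A.comm_of_generic hb (X := X) (R := ⟨Z', A.CN_le_ZA hZC⟩)
        (fun i j hij => hX i j hij ⟨Z', A.CN_le_ZA hZC⟩ ⟨hZ', hZC⟩) hTX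
    rw [add_mul, mul_add, e1, h0 d hd]
  exact (hf.comm T h1 Z hZ.1).symm

end Pool.Agent.N208.CT
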